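import Pool.Agent.H53R2.SD5

/-! Monomial space one, degree gap unbounded (helper53). -/

set_option autoImplicit false

namespace Pool.Agent.Results.MP_a6f615_lc.SpaceOneDegreeUnbounded

open MvPolynomial Pool.Agent.H53R2.SD

/-- Over every field with more than two elements there are, for every `N`, finitely many variables and
a single polynomial `p` such that `{p}` is unsatisfiable, has a semantic refutation of monomial space
`1`, and its minimum polynomial calculus degree `D` is at least `deg p + N`; in characteristic zero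
one can take `p` of degree one. -/
theorem result : ∀ (F : Type) [Field F], (∃ r : F, r ≠ 0 ∧ r ≠ 1) → ∀ N : ℕ,
    ∃ (V : Type) (_ : Fintype V) (p : MvPolynomial V F),
      (CharZero F → p.totalDegree = 1) ∧ Unsat {p} ∧
      (∃ M : ℕ → Finset (MvPolynomial V F), IsSemRef {p} 1 M ∧ semSpace 1 M = 1) ∧
      ∃ D : ℕ, IsLeast {k | ∃ L, IsPCRef {p} L ∧ pcDegree L = k} D ∧ p.totalDegree + N ≤ D := by
  intro F _ hF N
  by_cases h0 : CharZero F
  · have h := fam3 (F := F) N
    exact ⟨Fin (2 * N + 3), inferInstance, _, fun _ => h.1, h.2⟩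
  by_cases hr : ∃ r : F, ∀ t : ℕ, (t : F) ≠ r
  · obtain ⟨r, hr⟩ := hr
    exact ⟨Fin (N + 2) × Fin (N + 2), inferInstance, _, fun h => absurd h h0, fam1 N r hr⟩
  push Not at hr
  -- `F` is a prime field of odd characteristic
  have hp0 : ringChar F ≠ 0 := by
    intro h
    have : CharP F 0 := by rw [← h]; exact ringChar.charP F
    exact h0 (CharP.charP_to_charZero F)
  have hpp : 0 < ringChar F := Nat.pos_of_ne_zero hp0
  have hp2 : ringChar F ≠ 2 := by
    intro h
    obtain ⟨r, r0, r1⟩ := hF
    obtain ⟨t, ht⟩ := hr r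
    have h2 : CharP F 2 := by rw [← h]; exact ringChar.charP F
    have h3 := CharP.cast_eq_mod F 2 t
    rw [ht] at h3
    rcases Nat.mod_two_eq_zero_or_one t with h4 | h4
    · rw [h4] at h3; exact r0 (by rw [h3]; simp)
    · rw [h4] at h3; exact r1 (by rw [h3]; simp)
  have hfin : Finite F := by
    have hsurj : Function.Surjective (fun i : Fin (ringChar F) => ((i : ℕ) : F)) := by
      intro x
      obtain ⟨t, ht⟩ := hr x
      refine ⟨⟨t % ringChar F, Nat.mod_lt _ hpp⟩, ?_⟩
      show ((t % ringChar F : ℕ) : F) = x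
      rw [← CharP.cast_eq_mod F (ringChar F) t, ht]
    exact Finite.of_surjective _ hsurj
  obtain ⟨ν, hν⟩ := FiniteField.exists_nonsquare hp2
  have h2 : (2 : F) ≠ 0 := Ring.two_ne_zero hp2
  exact ⟨Fin (N + 3) × Fin (N + 2), inferInstance, _, fun h => absurd h h0, fam2 N ν h2 hν⟩

end Pool.Agent.Results.MP_a6f615_lc.SpaceOneDegreeUnbounded
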